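import Mathlib.Order.Lattice
import Mathlib.Order.BoundedOrder.Lattice
import Mathlib.Logic.Relation
import Mathlib.Data.Fintype.Card
import Mathlib.Data.Fintype.Basic
import Mathlib.Data.Set.Card
import Mathlib.Tactic.Tauto

/-!
# MP_5c7113_al, Q2: a nontrivial ortholattice identity of the extended permutohedra `Reg e`,
`e` a finite strict ordering

The ortholattice identity `x ⊓ (xᗮ ⊔ y) ⊓ (xᗮ ⊔ yᗮ) = ⊥` holds in `Reg e` for every strict ordering
`e` on a finite set, and it fails in the six-element ortholattice `MO2`. So the answer to Q2 is yes.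

More generally, every ortholattice identity of the form `s = ⊥` that holds in the two-element
Boolean algebra holds in all these `Reg e`.

The proof: for a pair `(x, y)` of `e` with nothing strictly between `x` and `y`, the map sending a
regular closed set `a` to the truth value of `(x, y) ∈ a` is a homomorphism of ortholattices from
`Reg e` to the two-element Boolean algebra; and every nonempty regular closed set contains such a
pair, because its interior is a nonempty open set and `e` is finite.
-/

set_option autoImplicit false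
set_option linter.unusedSectionVars false

universe u

namespace Pool.Agent.Results.MP_5c7113_al.OrtholatticeIdentity

/-- Ortholattice terms in the variables `x₀, x₁, x₂, …`. -/
inductive OTerm : Type
  | var : ℕ → OTerm
  | zero : OTerm
  | one : OTerm
  | join : OTerm → OTerm → OTerm
  | meet : OTerm → OTerm → OTerm
  | perp : OTerm → OTerm

/-- An ortholattice: a bounded lattice with an order-reversing involution `perp` such that
`x ⊓ perp x = ⊥`. -/
class Ortholattice (L : Type u) extends Lattice L, BoundedOrder L where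
  /-- The orthocomplementation. -/
  perp : L → L
  perp_le_perp : ∀ x y : L, x ≤ y → perp y ≤ perp x
  perp_perp : ∀ x : L, perp (perp x) = x
  inf_perp : ∀ x : L, x ⊓ perp x = ⊥

/-- The value of an ortholattice term under an assignment of elements of `L` to the variables. -/
def OTerm.eval {L : Type u} [Ortholattice L] (v : ℕ → L) : OTerm → L
  | .var n => v n
  | .zero => ⊥
  | .one => ⊤
  | .join a b => a.eval v ⊔ b.eval v
  | .meet a b => a.eval v ⊓ b.eval v
  | .perp a => Ortholattice.perp (a.eval v)

/-- The value of an ortholattice term in the two-element Boolean algebra. -/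
def OTerm.evalBool (v : ℕ → Bool) : OTerm → Bool
  | .var n => v n
  | .zero => false
  | .one => true
  | .join a b => a.evalBool v || b.evalBool v
  | .meet a b => a.evalBool v && b.evalBool v
  | .perp a => !(a.evalBool v)

/-- A strict ordering on `E`: an irreflexive and transitive set of ordered pairs. -/
structure StrictOrdering (E : Type u) where
  /-- The set of pairs. -/
  rel : Set (E × E)
  irrefl : ∀ x, (x, x) ∉ rel
  trans : ∀ x y z, (x, y) ∈ rel → (y, z) ∈ rel → (x, z) ∈ rel

section Reg

variable {E : Type u}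

/-- The transitive closure of a set of pairs. -/
def cl (a : Set (E × E)) : Set (E × E) :=
  {p | Relation.TransGen (fun x y => (x, y) ∈ a) p.1 p.2}

/-- The interior of `a` in the strict ordering `e`: the complement in `e` of the transitive closure
of the complement of `a` in `e`. It is the largest open subset of `a`, see `interior_isGreatest`. -/
def interior (e : StrictOrdering E) (a : Set (E × E)) : Set (E × E) := e.rel \ cl (e.rel \ a)

/-- The regular closed subsets of `e`: the sets `a` with `a = cl (interior a)`. -/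
def Reg (e : StrictOrdering E) : Type u := {a : Set (E × E) // a = cl (interior e a)}

theorem sub_cl (a : Set (E × E)) : a ⊆ cl a := fun _ hp => Relation.TransGen.single hp

theorem tlift {α β : Type*} {r : α → α → Prop} {s : β → β → Prop} (f : α → β)
    (h : ∀ a b, r a b → s (f a) (f b)) {x y : α} (hxy : Relation.TransGen r x y) :
    Relation.TransGen s (f x) (f y) := by
  induction hxy with
  | single h1 => exact Relation.TransGen.single (h _ _ h1)
  | tail _ h2 ih => exact Relation.TransGen.tail ih (h _ _ h2)

theorem cl_mono {a b : Set (E × E)} (h : a ⊆ b) : cl a ⊆ cl b :=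
  fun _ hp => tlift id (fun _ _ hxy => h hxy) hp

theorem cl_idem (a : Set (E × E)) : cl (cl a) = cl a := by
  apply Set.Subset.antisymm
  · rintro ⟨x, y⟩ hp
    have hp2 : Relation.TransGen (fun x y => (x, y) ∈ cl a) x y := hp
    clear hp
    show Relation.TransGen (fun x y => (x, y) ∈ a) x y
    induction hp2 with
    | single h1 => exact h1
    | tail _ h2 ih => exact Relation.TransGen.trans ih h2
  · exact sub_cl _

theorem cl_trans {a : Set (E × E)} {x y z : E} (h1 : (x, y) ∈ cl a) (h2 : (y, z) ∈ cl a) :
    (x, z) ∈ cl a := Relation.TransGen.trans h1 h2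

theorem cl_sub {a b : Set (E × E)} (h : a ⊆ b)
    (hb : ∀ x y z, (x, y) ∈ b → (y, z) ∈ b → (x, z) ∈ b) : cl a ⊆ b := by
  rintro ⟨x, y⟩ hp
  have hp2 : Relation.TransGen (fun x y => (x, y) ∈ a) x y := hp
  clear hp
  induction hp2 with
  | single h1 => exact h h1
  | tail _ h2 ih => exact hb _ _ _ ih (h h2)

theorem cl_sub_rel (e : StrictOrdering E) {a : Set (E × E)} (h : a ⊆ e.rel) : cl a ⊆ e.rel :=
  cl_sub h e.trans

variable (e : StrictOrdering E)

theorem interior_sub (a : Set (E × E)) : interior e a ⊆ a := by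
  intro p hp
  by_contra h
  exact hp.2 (sub_cl _ ⟨hp.1, h⟩)

theorem interior_sub_rel (a : Set (E × E)) : interior e a ⊆ e.rel := fun _ hp => hp.1

theorem interior_mono {a b : Set (E × E)} (h : a ⊆ b) : interior e a ⊆ interior e b := by
  intro p hp
  have h1 : e.rel \ b ⊆ e.rel \ a := fun q hq => ⟨hq.1, fun h3 => hq.2 (h h3)⟩
  exact ⟨hp.1, fun h2 => hp.2 (cl_mono h1 h2)⟩

theorem rel_diff_interior (a : Set (E × E)) : e.rel \ interior e a = cl (e.rel \ a) := by
  apply Set.Subset.antisymm
  · intro p hp
    by_contra h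
    exact hp.2 ⟨hp.1, h⟩
  · intro p hp
    exact ⟨cl_sub_rel e (fun _ hq => hq.1) hp, fun h => h.2 hp⟩

theorem interior_idem (a : Set (E × E)) : interior e (interior e a) = interior e a := by
  conv_lhs => unfold interior
  rw [show e.rel \ (e.rel \ cl (e.rel \ a)) = cl (e.rel \ a) from rel_diff_interior e a, cl_idem]
  rfl

/-- The interior of `a ⊆ e` is the largest open subset of `a`, where `b ⊆ e` is open if `e \ b` is
closed, that is, transitive. -/
theorem interior_isGreatest {a : Set (E × E)} :
    IsGreatest {b : Set (E × E) | b ⊆ e.rel ∧ b ⊆ a ∧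
      ∀ x y z, (x, y) ∈ e.rel \ b → (y, z) ∈ e.rel \ b → (x, z) ∈ e.rel \ b} (interior e a) := by
  constructor
  · refine ⟨interior_sub_rel e a, interior_sub e a, ?_⟩
    intro x y z h1 h2
    rw [rel_diff_interior] at h1 h2 ⊢
    exact cl_trans h1 h2
  · rintro b ⟨hb1, hb2, hb3⟩ p hp
    refine ⟨hb1 hp, fun h => ?_⟩
    have h2 : cl (e.rel \ a) ⊆ e.rel \ b :=
      cl_sub (fun q hq => ⟨hq.1, fun h3 => hq.2 (hb2 h3)⟩) hb3
    exact (h2 h).2 hp

theorem reg_cl_interior (a : Set (E × E)) :
    cl (interior e a) = cl (interior e (cl (interior e a))) := by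
  apply Set.Subset.antisymm
  · apply cl_mono
    conv_lhs => rw [← interior_idem]
    exact interior_mono e (sub_cl _)
  · have h := cl_mono (interior_sub e (cl (interior e a)))
    rwa [cl_idem] at h

theorem reg_cl_union {a b : Set (E × E)} (ha : a = cl (interior e a))
    (hb : b = cl (interior e b)) : cl (a ∪ b) = cl (interior e (cl (a ∪ b))) := by
  apply Set.Subset.antisymm
  · have h1 : a ∪ b ⊆ cl (interior e (cl (a ∪ b))) := by
      apply Set.union_subset
      · have h2 : cl (interior e a) ⊆ cl (interior e (cl (a ∪ b))) :=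
          cl_mono (interior_mono e (Set.subset_union_left.trans (sub_cl _)))
        rwa [← ha] at h2
      · have h2 : cl (interior e b) ⊆ cl (interior e (cl (a ∪ b))) :=
          cl_mono (interior_mono e (Set.subset_union_right.trans (sub_cl _)))
        rwa [← hb] at h2
    have h3 := cl_mono h1
    rwa [cl_idem] at h3
  · have h := cl_mono (interior_sub e (cl (a ∪ b)))
    rwa [cl_idem] at h

theorem reg_closed {a : Set (E × E)} (ha : a = cl (interior e a)) : cl a = a := by
  conv_lhs => rw [ha]
  rw [cl_idem, ← ha]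

theorem reg_sub_rel {a : Set (E × E)} (ha : a = cl (interior e a)) : a ⊆ e.rel := by
  rw [ha]
  exact cl_sub_rel e (interior_sub_rel e a)

theorem rel_diff_cl {a : Set (E × E)} (ha : a ⊆ e.rel) : e.rel \ cl a = interior e (e.rel \ a) := by
  unfold interior
  rw [show e.rel \ (e.rel \ a) = a from Set.sdiff_sdiff_cancel_left ha]

theorem reg_perp {a : Set (E × E)} (ha : a = cl (interior e a)) :
    cl (e.rel \ a) = cl (interior e (cl (e.rel \ a))) := by
  have h : e.rel \ a = interior e (e.rel \ interior e a) := by
    conv_lhs => rw [ha]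
    exact rel_diff_cl e (interior_sub_rel e a)
  rw [h]
  exact reg_cl_interior e _

/-- The regular closed sets are ordered by inclusion. -/
instance : PartialOrder (Reg e) := Subtype.partialOrder _

/-- The lattice of the regular closed subsets of `e`, ordered by inclusion. -/
instance : Lattice (Reg e) where
  sup a b := ⟨cl (a.1 ∪ b.1), reg_cl_union e a.2 b.2⟩
  inf a b := ⟨cl (interior e (a.1 ∩ b.1)), reg_cl_interior e _⟩
  le_sup_left a b := show a.1 ⊆ cl (a.1 ∪ b.1) from Set.subset_union_left.trans (sub_cl _)
  le_sup_right a b := show b.1 ⊆ cl (a.1 ∪ b.1) from Set.subset_union_right.trans (sub_cl _)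
  sup_le a b c hac hbc := show cl (a.1 ∪ b.1) ⊆ c.1 by
    have h := cl_mono (Set.union_subset (show a.1 ⊆ c.1 from hac) (show b.1 ⊆ c.1 from hbc))
    rwa [reg_closed e c.2] at h
  inf_le_left a b := show cl (interior e (a.1 ∩ b.1)) ⊆ a.1 by
    have h := cl_mono ((interior_sub e (a.1 ∩ b.1)).trans Set.inter_subset_left)
    rwa [reg_closed e a.2] at h
  inf_le_right a b := show cl (interior e (a.1 ∩ b.1)) ⊆ b.1 by
    have h := cl_mono ((interior_sub e (a.1 ∩ b.1)).trans Set.inter_subset_right)
    rwa [reg_closed e b.2] at h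
  le_inf a b c hab hac := show a.1 ⊆ cl (interior e (b.1 ∩ c.1)) by
    have h := cl_mono (interior_mono e
      (Set.subset_inter (show a.1 ⊆ b.1 from hab) (show a.1 ⊆ c.1 from hac)))
    rwa [← a.2] at h

theorem cl_empty : cl (∅ : Set (E × E)) = ∅ := by
  apply Set.Subset.antisymm
  · exact cl_sub (Set.Subset.refl _) (fun _ _ _ h _ => absurd h (Set.notMem_empty _))
  · exact Set.empty_subset _

theorem interior_empty : interior e (∅ : Set (E × E)) = ∅ :=
  Set.Subset.antisymm (interior_sub e _) (Set.empty_subset _)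

theorem cl_rel : cl e.rel = e.rel :=
  Set.Subset.antisymm (cl_sub_rel e (Set.Subset.refl _)) (sub_cl _)

theorem interior_rel : interior e e.rel = e.rel := by
  unfold interior
  rw [Set.sdiff_self, cl_empty, Set.sdiff_empty]

/-- The ortholattice of the regular closed subsets of `e`, with bottom element `∅`, top element `e`
and orthocomplementation `a ↦ cl (e \ a)`. -/
instance : Ortholattice (Reg e) where
  bot := ⟨∅, by rw [interior_empty, cl_empty]⟩
  top := ⟨e.rel, by rw [interior_rel, cl_rel]⟩
  bot_le a := Set.empty_subset a.1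
  le_top a := reg_sub_rel e a.2
  perp a := ⟨cl (e.rel \ a.1), reg_perp e a.2⟩
  perp_le_perp a b h := cl_mono (fun _ hp => ⟨hp.1, fun h2 => hp.2 (h h2)⟩)
  perp_perp a := Subtype.ext a.2.symm
  inf_perp a := by
    apply Subtype.ext
    show cl (interior e (a.1 ∩ cl (e.rel \ a.1))) = ∅
    have h : interior e (a.1 ∩ cl (e.rel \ a.1)) = ∅ := by
      apply Set.Subset.antisymm ?_ (Set.empty_subset _)
      intro p hp
      have h1 : p ∈ interior e a.1 := interior_mono e Set.inter_subset_left hp
      have h2 : p ∈ cl (e.rel \ a.1) := (interior_sub e _ hp).2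
      exact h1.2 h2
    rw [h, cl_empty]

/-- A pair of `e` with nothing strictly between its two entries. -/
def Covers (x y : E) : Prop :=
  (x, y) ∈ e.rel ∧ ∀ z, (x, z) ∈ e.rel → (z, y) ∉ e.rel

theorem mem_cl_of_covers {x y : E} (h : Covers e x y) {a : Set (E × E)} (ha : a ⊆ e.rel) :
    (x, y) ∈ cl a ↔ (x, y) ∈ a := by
  constructor
  · intro h1
    have h2 : Relation.TransGen (fun x y => (x, y) ∈ a) x y := h1
    rcases Relation.TransGen.tail'_iff.1 h2 with ⟨z, h3, h4⟩
    rcases Relation.reflTransGen_iff_eq_or_transGen.1 h3 with h5 | h5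
    · rw [← h5]
      exact h4
    · exact absurd (ha h4) (h.2 z (cl_sub_rel e ha h5))
  · exact fun h1 => sub_cl a h1

theorem mem_interior_of_covers {x y : E} (h : Covers e x y) {a : Set (E × E)} :
    (x, y) ∈ interior e a ↔ (x, y) ∈ a := by
  constructor
  · exact fun h1 => interior_sub e a h1
  · intro h1
    refine ⟨h.1, fun h2 => ?_⟩
    exact ((mem_cl_of_covers e h (fun _ hq => hq.1)).1 h2).2 h1

open Classical in
/-- For a covering pair `(x, y)` the truth value of `(x, y) ∈ a` is a homomorphism of
ortholattices. -/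
theorem mem_eval {x y : E} (h : Covers e x y) (v : ℕ → Reg e) (s : OTerm) :
    (x, y) ∈ (s.eval v).1 ↔ s.evalBool (fun n => decide ((x, y) ∈ (v n).1)) = true := by
  induction s with
  | var n =>
    show (x, y) ∈ (v n).1 ↔ decide ((x, y) ∈ (v n).1) = true
    rw [decide_eq_true_iff]
  | zero =>
    show (x, y) ∈ (∅ : Set (E × E)) ↔ false = true
    simp
  | one =>
    show (x, y) ∈ e.rel ↔ true = true
    simp [h.1]
  | join a b iha ihb =>
    show (x, y) ∈ cl ((a.eval v).1 ∪ (b.eval v).1) ↔ (_ || _) = true
    rw [mem_cl_of_covers e h (Set.union_subset (reg_sub_rel e (a.eval v).2)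
      (reg_sub_rel e (b.eval v).2)), Bool.or_eq_true, ← iha, ← ihb]
    rfl
  | meet a b iha ihb =>
    show (x, y) ∈ cl (interior e ((a.eval v).1 ∩ (b.eval v).1)) ↔ (_ && _) = true
    rw [mem_cl_of_covers e h (interior_sub_rel e _), mem_interior_of_covers e h,
      Bool.and_eq_true, ← iha, ← ihb]
    rfl
  | perp a iha =>
    show (x, y) ∈ cl (e.rel \ (a.eval v).1) ↔ (!_) = true
    rw [mem_cl_of_covers e h (fun _ hq => hq.1), Bool.not_eq_true', ← Bool.not_eq_true, ← iha]
    exact ⟨fun h1 => h1.2, fun h1 => ⟨h.1, h1⟩⟩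

/-- Every nonempty open subset of a strict ordering on a finite set contains a covering pair. -/
theorem exists_covers_mem_interior [Finite E] (a : Set (E × E)) :
    ∀ (n : ℕ) (x y : E), {z | (x, z) ∈ e.rel ∧ (z, y) ∈ e.rel}.ncard ≤ n →
      (x, y) ∈ interior e a → ∃ s t, Covers e s t ∧ (s, t) ∈ interior e a := by
  intro n
  induction n with
  | zero =>
    intro x y hn h
    have h1 : {z | (x, z) ∈ e.rel ∧ (z, y) ∈ e.rel} = ∅ :=
      (Set.ncard_eq_zero (Set.toFinite _)).1 (Nat.le_zero.1 hn)
    refine ⟨x, y, ⟨h.1, fun z h2 h3 => ?_⟩, h⟩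
    have h4 : z ∈ {z | (x, z) ∈ e.rel ∧ (z, y) ∈ e.rel} := ⟨h2, h3⟩
    rw [h1] at h4
    exact h4
  | succ n ih =>
    intro x y hn h
    by_cases hc : Covers e x y
    · exact ⟨x, y, hc, h⟩
    · have h1 : ∃ z, (x, z) ∈ e.rel ∧ (z, y) ∈ e.rel := by
        by_contra h2
        exact hc ⟨h.1, fun z h3 h4 => h2 ⟨z, h3, h4⟩⟩
      obtain ⟨z, h2, h3⟩ := h1
      have h4 : (x, z) ∈ interior e a ∨ (z, y) ∈ interior e a := by
        by_contra h5
        rw [not_or] at h5
        have h6 : (x, y) ∈ e.rel \ interior e a :=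
          ((interior_isGreatest e (a := a)).1.2.2) x z y ⟨h2, h5.1⟩ ⟨h3, h5.2⟩
        exact h6.2 h
      rcases h4 with h4 | h4
      · refine ih x z ?_ h4
        have h5 : {w | (x, w) ∈ e.rel ∧ (w, z) ∈ e.rel} ⊂ {w | (x, w) ∈ e.rel ∧ (w, y) ∈ e.rel} := by
          refine ⟨fun w hw => ⟨hw.1, e.trans _ _ _ hw.2 h3⟩, fun h6 => ?_⟩
          exact e.irrefl z (h6 (show z ∈ _ from ⟨h2, h3⟩)).2
        have h6 := Set.ncard_lt_ncard h5 (Set.toFinite _)
        omega
      · refine ih z y ?_ h4
        have h5 : {w | (z, w) ∈ e.rel ∧ (w, y) ∈ e.rel} ⊂ {w | (x, w) ∈ e.rel ∧ (w, y) ∈ e.rel} := by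
          refine ⟨fun w hw => ⟨e.trans _ _ _ h2 hw.1, hw.2⟩, fun h6 => ?_⟩
          exact e.irrefl z (h6 (show z ∈ _ from ⟨h2, h3⟩)).1
        have h6 := Set.ncard_lt_ncard h5 (Set.toFinite _)
        omega

open Classical in
theorem eval_eq_bot [Finite E] (s : OTerm) (hs : ∀ v : ℕ → Bool, s.evalBool v = false)
    (v : ℕ → Reg e) : s.eval v = ⊥ := by
  apply Subtype.ext
  show (s.eval v).1 = ∅
  by_contra hne
  have h1 : (interior e (s.eval v).1).Nonempty := by
    rw [Set.nonempty_iff_ne_empty]
    intro h2
    have h3 := (s.eval v).2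
    rw [h2, cl_empty] at h3
    exact hne h3
  obtain ⟨⟨x, y⟩, hp⟩ := h1
  obtain ⟨x', y', hc, h2⟩ := exists_covers_mem_interior e (s.eval v).1 _ x y le_rfl hp
  have h3 := (mem_eval e hc v s).1 (interior_sub e _ h2)
  rw [hs] at h3
  exact absurd h3 (by decide)

end Reg

/-! ### The six-element ortholattice -/

/-- The six elements `0, a, aᗮ, b, bᗮ, 1`. -/
inductive MO2 : Type
  | z | a | a' | b | b' | o
  deriving DecidableEq

namespace MO2

instance : Fintype MO2 := ⟨{z, a, a', b, b', o}, fun x => by cases x <;> decide⟩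

/-- The order of `MO2`: only `0` lies below and only `1` lies above everything. -/
def le : MO2 → MO2 → Bool
  | z, _ => true
  | _, o => true
  | x, y => decide (x = y)

/-- Binary joins of `MO2`. -/
def sup : MO2 → MO2 → MO2
  | z, y => y
  | x, z => x
  | x, y => if x = y then x else o

/-- Binary meets of `MO2`. -/
def inf : MO2 → MO2 → MO2
  | o, y => y
  | x, o => x
  | x, y => if x = y then x else z

/-- The orthocomplementation of `MO2`. -/
def neg : MO2 → MO2
  | z => o
  | a => a'
  | a' => a
  | b => b'
  | b' => b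
  | o => z

instance : LE MO2 := ⟨fun x y => le x y = true⟩

instance : DecidableRel (fun x y : MO2 => x ≤ y) :=
  fun x y => inferInstanceAs (Decidable (le x y = true))

instance : PartialOrder MO2 where
  le_refl := by decide
  le_trans := by decide
  le_antisymm := by decide

instance : Lattice MO2 where
  sup := sup
  inf := inf
  le_sup_left := by decide
  le_sup_right := by decide
  sup_le := by decide
  inf_le_left := by decide
  inf_le_right := by decide
  le_inf := by decide

instance : Ortholattice MO2 where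
  bot := z
  top := o
  bot_le := by decide
  le_top := by decide
  perp := neg
  perp_le_perp := by decide
  perp_perp := by decide
  inf_perp := by decide

end MO2

/-- The ortholattice term `x ⊓ (xᗮ ⊔ y) ⊓ (xᗮ ⊔ yᗮ)`, with `x = x₀` and `y = x₁`. -/
def term : OTerm :=
  .meet (.meet (.var 0) (.join (.perp (.var 0)) (.var 1)))
    (.join (.perp (.var 0)) (.perp (.var 1)))

/-- **MP_5c7113_al, Q2.** There is a nontrivial ortholattice identity which holds in `Reg e` for
every strict ordering `e` on a finite set, namely `x ⊓ (xᗮ ⊔ y) ⊓ (xᗮ ⊔ yᗮ) = 0`: it fails in some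
ortholattice. Moreover every ortholattice identity of the form `s = 0` which holds in the
two-element Boolean algebra holds in all these ortholattices `Reg e`. -/
theorem result :
    ((∃ (L : Type) (_ : Ortholattice L) (v : ℕ → L), term.eval v ≠ OTerm.zero.eval v) ∧
      ∀ (E : Type u) [Finite E] (e : StrictOrdering E) (v : ℕ → Reg e),
        term.eval v = OTerm.zero.eval v) ∧
    ∀ s : OTerm, (∀ v : ℕ → Bool, s.evalBool v = false) →
      ∀ (E : Type u) [Finite E] (e : StrictOrdering E) (v : ℕ → Reg e),
        s.eval v = OTerm.zero.eval v := by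
  have h1 : ∀ s : OTerm, (∀ v : ℕ → Bool, s.evalBool v = false) →
      ∀ (E : Type u) [Finite E] (e : StrictOrdering E) (v : ℕ → Reg e),
        s.eval v = OTerm.zero.eval v :=
    fun s hs E _ e v => eval_eq_bot e s hs v
  refine ⟨⟨⟨MO2, inferInstance, fun n => if n = 0 then MO2.a else MO2.b, ?_⟩, ?_⟩, h1⟩
  · decide
  · intro E _ e v
    refine h1 term ?_ E e v
    intro w
    show ((w 0 && (!(w 0) || w 1)) && (!(w 0) || !(w 1))) = false
    cases w 0 <;> cases w 1 <;> rfl

end Pool.Agent.Results.MP_5c7113_al.OrtholatticeIdentity
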